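import Pool.Agent.K6.H27.CY.Sub

/-!
# Zero or big: the classes in invariant subspaces, and finite images

Not a hand-in: this is the theorem `span_img` of the starting module `Pool.Agent.N110.CC.V` in terms of generators.

Let `X'` be a normal projective variety of dimension `n ≥ 1` (a Calabi-Yau manifold, for instance), with
generic point `y'`. Let the vectors `c' P` be the classes of the prime divisors in `N¹(X') = ℤ ^ ρ`. Let
`ℤ ^ r`, `r ≥ 1`, act on `X'` by pseudo-automorphisms `f_v`, given by the automorphisms `φ v = f_v^*` of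
the function field, such that `f_v` has positive entropy (the first dynamical degree is greater than
`1`) for all `v ≠ 0`. Let `Λ` be the subgroup of `N¹(X')` generated by `r + 1` linearly independent
classes `s j`, such that the pull backs by the `f_v` map `Λ` into itself, and suppose that `Λ ⊗ ℚ`
contains the class of a big divisor `B`.

Let `X' → X` be a finite morphism onto a normal projective variety `X` (for instance `X = X'`, or the
quotient by a finite group), given by the homomorphism `π` of the function fields; it has nothing to do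
with the maps `f_v`. Then every pseudo-effective `ℚ`-divisor `L` on `X` such that the class of its pull
back is in `Λ ⊗ ℚ` is numerically trivial or big, and if it is not big and the irregularity of `X` is
zero, it is torsion.
-/

set_option autoImplicit false

open FF Pool.Agent.W602.GT Pool.Agent.Y172 Pool.Agent.R887 Pool.Agent.N110 Pool.Agent.N110.NV
open Pool.Agent.N492.PA Pool.Agent.N110.CC

namespace Pool.Agent.K6.H27.CY.Images

section

variable {K : Type} [Field K] [Algebra ℂ K] {N n ρ k : ℕ}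

/-- The class of the `ℚ`-divisor `L` in `N¹(X) ⊗ ℝ = ℝ ^ ρ`. -/
noncomputable def classOf (y : Fin (N + 1) → K) (c : Place ℂ K → Fin ρ → ℤ)
    (L : Place ℂ K → ℚ) : Fin ρ → ℝ :=
  fun i => (cls y (fun P j => (c P j : ℚ)) L i : ℝ)

/-- The class of `L` is a rational combination of the classes `s j`. -/
def InSpan (y : Fin (N + 1) → K) (c : Place ℂ K → Fin ρ → ℤ) (s : Fin k → Fin ρ → ℤ)
    (L : Place ℂ K → ℚ) : Prop :=
  ∃ a : Fin k → ℚ, classOf y c L = comb s (fun j => (a j : ℝ))

/-- The support of `L` is finite: `L` is a divisor. -/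
def IsDivisor (y : Fin (N + 1) → K) (L : Place ℂ K → ℚ) : Prop :=
  {P | IsPrimeDivisor y P ∧ L P ≠ 0}.Finite

theorem inSpan {y : Fin (N + 1) → K} {c : Place ℂ K → Fin ρ → ℤ} {s : Fin k → Fin ρ → ℤ}
    {L : Place ℂ K → ℚ} (h : InSpan y c s L) : Pool.Agent.K6.H27.CY.InSpan y c s L := by
  obtain ⟨a, ha⟩ := h
  refine ⟨a, fun i => ?_⟩
  have h1 := congrFun ha i
  rw [classOf, comb, Finset.sum_apply] at h1
  simp only [Pi.smul_apply, smul_eq_mul] at h1
  exact_mod_cast h1

end

theorem images_main {K K' : Type} [Field K] [Algebra ℂ K] [Field K'] [Algebra ℂ K'] {N N' n r ρ : ℕ}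
    {y : Fin (N + 1) → K} {y' : Fin (N' + 1) → K'} (hy : NormalModel y) (hy' : NormalModel y')
    (hn : Algebra.trdeg ℂ K = n) (hn' : Algebra.trdeg ℂ K' = n) (hn0 : 0 < n) (hr : 0 < r)
    {c' : Place ℂ K' → Fin ρ → ℤ} (hc' : PicardBasis y' c')
    {φ : (Fin r → ℤ) → (K' ≃ₐ[ℂ] K')} (hφ : ∀ u v, φ (u + v) = φ u * φ v)
    (hps : ∀ v, PseudoAut (φ v) y') (hent : ∀ v, v ≠ 0 → 1 < dynDegree (φ v) y' n 1)
    {s : Fin (r + 1) → Fin ρ → ℤ} (hli : LinearIndependent ℝ (fun j i => (s j i : ℝ)))
    (hst : ∀ v, PreservesSpan y' c' s (φ v))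
    {B : Place ℂ K' → ℚ} (hB : IsDivisor y' B) (hBs : InSpan y' c' s B) (hBb : BigD y' B)
    (π : K →ₐ[ℂ] K') (hπ : FiniteMap π y y') (L : Place ℂ K → ℚ) (hL : IsDivisor y L)
    (hLV : ∀ L' : Place ℂ K' → ℚ, IsDivisor y' L' →
      (∀ Q P e, IsPrimeDivisor y' Q → LiesOver π Q P e → L' Q = e * L P) → InSpan y' c' s L')
    (hpsef : PsefD y L) :
    (PsefD y (fun P => -L P) ∧ (IrregularityZero y → ∃ m : ℕ, 1 ≤ m ∧ ∃ f : K, f ≠ 0 ∧
      ∀ P, IsPrimeDivisor y P → (P.ord f : ℚ) = m * L P)) ∨ BigD y L := by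
  rcases span_img hy hy' hn hn' hn0 hr hc' hφ hps hent
    (V := Pool.Agent.K6.H27.CY.VS s) (Pool.Agent.K6.H27.CY.finrank_VS hli)
    (fun v T hT => Pool.Agent.K6.H27.CY.inv_VS (hst v) T hT) hB
    (Pool.Agent.K6.H27.CY.inSpan_iff.1 (inSpan hBs)) hBb hπ hL
    (fun L' h1 h2 => Pool.Agent.K6.H27.CY.inSpan_iff.1 (inSpan (hLV L' h1 h2))) hpsef with h | h
  · exact Or.inl ⟨h, fun hq => torsion hy hq hL hpsef h⟩
  · exact Or.inr h

end Pool.Agent.K6.H27.CY.Images
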