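import Pool.Agent.N110.CC.V
import Pool.Agent.N110.CC.W4
import Pool.Agent.N110.CC.SA
import Pool.Agent.N110.CC.Hull
import Pool.Agent.N110.CC.HRes

/-!
Rational classes in an invariant subspace of dimension `r + 1`: zero or ample.
-/

set_option autoImplicit false
set_option linter.unusedSectionVars false

open FF Pool.Agent.W602.GT Pool.Agent.Y172 Pool.Agent.R887
open Pool.Agent.N110 Pool.Agent.N110.PA Pool.Agent.N110.NV Pool.Agent.N492.PA Pool.Agent.N110.CC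
open scoped Pointwise

namespace Pool.Agent.K6.H27.CY

section

variable {K : Type} [Field K] [Algebra ℂ K] {N n r ρ : ℕ} {y : Fin (N + 1) → K}
  {c : Place ℂ K → Fin ρ → ℤ}

/-- the class of `L` is a rational combination of the classes `s j` -/
def InSpan {k : ℕ} (y : Fin (N + 1) → K) (c : Place ℂ K → Fin ρ → ℤ) (s : Fin k → Fin ρ → ℤ)
    (L : Place ℂ K → ℚ) : Prop :=
  ∃ a : Fin k → ℚ, ∀ i, cls y (fun P i => (c P i : ℚ)) L i = ∑ j, a j * s j i

/-- the space spanned by the classes -/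
def VS {k : ℕ} (s : Fin k → Fin ρ → ℤ) : Submodule ℚ (Fin ρ → ℚ) :=
  Submodule.span ℚ (Set.range fun j i => (s j i : ℚ))

theorem mem_VS {k : ℕ} {s : Fin k → Fin ρ → ℤ} {q : Fin ρ → ℚ} :
    q ∈ VS s ↔ ∃ a : Fin k → ℚ, ∀ i, q i = ∑ j, a j * s j i := by
  unfold VS
  rw [Submodule.mem_span_range_iff_exists_fun]
  constructor
  · rintro ⟨a, rfl⟩
    exact ⟨a, fun i => by simp [Finset.sum_apply]⟩
  · rintro ⟨a, ha⟩
    refine ⟨a, funext fun i => ?_⟩
    rw [ha i]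
    simp [Finset.sum_apply]

theorem inSpan_iff {k : ℕ} {s : Fin k → Fin ρ → ℤ} {L : Place ℂ K → ℚ} :
    InSpan y c s L ↔ cls y (cQ c) L ∈ VS s := by
  rw [mem_VS]
  rfl

theorem toR_VS {k : ℕ} {s : Fin k → Fin ρ → ℤ} {q : Fin ρ → ℚ} {a : Fin k → ℚ}
    (h : ∀ i, q i = ∑ j, a j * s j i) : toR q = comb s (fun j => (a j : ℝ)) := by
  funext i
  have h1 : toR q i = ((q i : ℚ) : ℝ) := rfl
  rw [h1, h i, comb, Finset.sum_apply]
  push_cast
  rfl

theorem finrank_VS {k : ℕ} {s : Fin k → Fin ρ → ℤ}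
    (hli : LinearIndependent ℝ (fun j i => (s j i : ℝ))) : Module.finrank ℚ (VS s) = k := by
  have h1 : LinearIndependent ℚ (fun j i => (s j i : ℚ)) := by
    rw [Fintype.linearIndependent_iff]
    intro g hg j
    have h2 := Fintype.linearIndependent_iff.1 hli (fun j => (g j : ℝ)) (by
      funext i
      have h3 := congrFun hg i
      simp only [Finset.sum_apply, Pi.smul_apply, smul_eq_mul, Pi.zero_apply] at h3 ⊢
      exact_mod_cast h3) j
    exact_mod_cast h2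
  unfold VS
  rw [finrank_span_eq_card h1, Fintype.card_fin]

/-- the invariance of the space -/
theorem inv_VS {k : ℕ} {s : Fin k → Fin ρ → ℤ} {φ : K ≃ₐ[ℂ] K} (h : PreservesSpan y c s φ)
    (T : (Fin ρ → ℝ) ≃ₗ[ℝ] (Fin ρ → ℝ)) (hT : IsPullBack y c φ T) :
    ∀ q ∈ VS s, ∃ q' ∈ VS s, T (toR q) = toR q' := by
  intro q hq
  obtain ⟨a, ha⟩ := mem_VS.1 hq
  choose b hb using h T hT
  refine ⟨fun i => ∑ l, (∑ j, a j * b j l) * s l i, mem_VS.2 ⟨_, fun i => rfl⟩, ?_⟩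
  rw [toR_VS ha, toR_VS (q := fun i => ∑ l, (∑ j, a j * b j l) * s l i)
    (a := fun l => ∑ j, a j * (b j l : ℚ)) (fun i => rfl), comb, map_sum]
  funext i
  simp only [map_smul, hb, comb, Finset.sum_apply, Pi.smul_apply, smul_eq_mul]
  push_cast
  simp only [Finset.mul_sum, Finset.sum_mul]
  rw [Finset.sum_comm]
  exact Finset.sum_congr rfl fun _ _ => Finset.sum_congr rfl fun _ _ => by ring

/-- the group of the maps `f_v` -/
def rangeGroup {φ : (Fin r → ℤ) → (K ≃ₐ[ℂ] K)} (hφ : ∀ u v, φ (u + v) = φ u * φ v) :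
    Subgroup (K ≃ₐ[ℂ] K) where
  carrier := Set.range φ
  mul_mem' := by
    rintro _ _ ⟨u, rfl⟩ ⟨v, rfl⟩
    exact ⟨u + v, hφ u v⟩
  one_mem' := ⟨0, phi_zero hφ⟩
  inv_mem' := by
    rintro _ ⟨u, rfl⟩
    refine ⟨-u, ?_⟩
    rw [eq_inv_iff_mul_eq_one, ← hφ, neg_add_cancel, phi_zero hφ]

/-- **Rational classes in an invariant subspace which contains an ample class.** -/
theorem zero_or_ample (hy : NormalModel y) (hn : Algebra.trdeg ℂ K = n) (hn0 : 0 < n) (hr : 0 < r)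
    (hc : PicardBasis y c) {φ : (Fin r → ℤ) → (K ≃ₐ[ℂ] K)}
    (hφ : ∀ u v, φ (u + v) = φ u * φ v) (haut : ∀ v, IsAut (φ v) y)
    (hent : ∀ v, v ≠ 0 → 1 < dynDegree (φ v) y n 1) {s : Fin (r + 1) → Fin ρ → ℤ}
    (hli : LinearIndependent ℝ (fun j i => (s j i : ℝ))) (hst : ∀ v, PreservesSpan y c s (φ v))
    {B : Place ℂ K → ℚ} (hB : {P | IsPrimeDivisor y P ∧ B P ≠ 0}.Finite)
    (hBs : InSpan y c s B) (hBa : toR (cls y (cQ c) B) ∈ interior (nefCone y n c))
    {L : Place ℂ K → ℚ} (hLs : InSpan y c s L) (hL : toR (cls y (cQ c) L) ∈ CE y c)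
    (hL0 : cls y (cQ c) L ≠ 0) : toR (cls y (cQ c) L) ∈ interior (nefCone y n c) := by
  have hps : ∀ v, PseudoAut (φ v) y := fun v => isAut_ps hy (haut v)
  have hsub : nefCone y n c ⊆ CE y c :=
    (nef_sub_mov hy hn hn0 hc).trans (mov_sub hy hn hn0 hc)
  have hpc := pc_eff hc.numClasses
  have hBi : toR (cls y (cQ c) B) ∈ interior (CE y c) := interior_mono hsub hBa
  have hBb : BigD y B := Pool.Agent.N619.CC.leafBIG K N ρ y hy c hc B hB hBi
  -- the class is in the interior of the pseudo-effective cone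
  have h1 : toR (cls y (cQ c) L) ∈ interior (CE y c) :=
    rat_intV hy hn hn0 hr hc hφ hps hent (V := VS s) (finrank_VS hli)
      (fun v T hT => inv_VS (hst v) T hT) hB (inSpan_iff.1 hBs) hBb (inSpan_iff.1 hLs) hL hL0
  -- the cones agree in the subspace
  obtain ⟨a, ha⟩ := mem_VS.1 (inSpan_iff.1 hLs)
  obtain ⟨b, hb⟩ := mem_VS.1 (inSpan_iff.1 hBs)
  have hae := toR_VS ha
  have hbe := toR_VS hb
  have h𝒮 : ∀ ψ ∈ rangeGroup hφ, IsAut ψ y := by
    rintro _ ⟨v, rfl⟩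
    exact haut v
  have hfr := fun ψ hψ => Pool.Agent.N265.CC.leafFREE K N n y hy ψ (h𝒮 ψ hψ)
  obtain ⟨h2, -, -⟩ := mainW hy hn hn0 hr hc (𝒮 := rangeGroup hφ) (fun ψ hψ => (hfr ψ hψ).1) hφ
    (fun v => ⟨v, rfl⟩) hent hli (by
      rintro _ ⟨v, rfl⟩
      exact hst v) (t₀ := fun j => (b j : ℝ)) (by rwa [← hbe])
  have h3 : ∀ t, comb s t ∈ CE y c → comb s t ∈ nefCone y n c := fun t ht =>
    h2 (nefCone y n c) isClosed_closure (fun x hx z hz => closure_coneOf_add hx hz)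
      (fun t ht x hx => closure_coneOf_smul hx ht)
      (fun ψ hψ T hT x hx => closure_coneOf_map T.toLinearMap (by
        rintro _ ⟨D', hD', rfl⟩
        have h4 := Pool.Agent.N608.CC.leafMOV K N ρ y hy c ψ (hfr ψ hψ).1 T hT D' hD'.1
        exact ⟨_, (hfr ψ hψ).2 D' hD', h4.1.symm⟩) hx) (by
          rw [← hbe]
          exact interior_subset hBa) t ht
  -- a small multiple of the ample class can be subtracted
  have hlim : Filter.Tendsto (fun t : ℕ => toR (cls y (cQ c) L) -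
      (1 / ((t : ℝ) + 1)) • toR (cls y (cQ c) B)) Filter.atTop
      (nhds (toR (cls y (cQ c) L) - (0 : ℝ) • toR (cls y (cQ c) B))) :=
    tendsto_const_nhds.sub (tendsto_one_div_add_atTop_nhds_zero_nat.smul_const _)
  rw [zero_smul, sub_zero] at hlim
  obtain ⟨t, ht⟩ := (hlim.eventually (isOpen_interior.mem_nhds h1)).exists
  have ht0 : (0 : ℝ) < 1 / ((t : ℝ) + 1) := by positivity
  have h4 : toR (cls y (cQ c) L) - (1 / ((t : ℝ) + 1)) • toR (cls y (cQ c) B) ∈ nefCone y n c := by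
    have h5 : toR (cls y (cQ c) L) - (1 / ((t : ℝ) + 1)) • toR (cls y (cQ c) B) =
        comb s (fun j => (a j : ℝ) - (1 / ((t : ℝ) + 1)) * (b j : ℝ)) := by
      rw [hae, hbe]
      unfold comb
      rw [Finset.smul_sum, ← Finset.sum_sub_distrib]
      refine Finset.sum_congr rfl fun j _ => ?_
      rw [smul_smul, sub_smul]
    rw [h5]
    exact h3 _ (by rw [← h5]; exact interior_subset ht)
  have h6 : (1 / ((t : ℝ) + 1)) • toR (cls y (cQ c) B) ∈ interior (nefCone y n c) := by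
    rw [mem_interior] at hBa ⊢
    obtain ⟨U, hU1, hU2, hU3⟩ := hBa
    refine ⟨(1 / ((t : ℝ) + 1)) • U, ?_, hU2.smul₀ ht0.ne', Set.smul_mem_smul_set hU3⟩
    rintro _ ⟨x, hx, rfl⟩
    exact closure_coneOf_smul (hU1 hx) ht0.le
  have h7 := Pool.Agent.N165.KM.interior_add_mem (C := nefCone y n c)
    (fun x hx z hz => closure_coneOf_add hx hz) h6 h4
  rwa [add_sub_cancel] at h7

/-- **Semiampleness.** -/
theorem semi (hy : NormalModel y) (hc : PicardBasis y c)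
    {L : Place ℂ K → ℚ} (hL : {P | IsPrimeDivisor y P ∧ L P ≠ 0}.Finite)
    (h : cls y (cQ c) L = 0 ∨ toR (cls y (cQ c) L) ∈ interior (nefCone y n c)) :
    ∃ m : ℕ, 1 ≤ m ∧ ∃ D : Place ℂ K → ℤ, IsFree y n D ∧
      cls y (cQ c) (fun P => m * L P - D P) = 0 := by
  rcases h with h0 | h2
  · refine ⟨1, le_rfl, fun _ => 0, free_zero hy, ?_⟩
    have h2 : (fun P => ((1 : ℕ) : ℚ) * L P - (((0 : ℤ) : ℚ))) = L := by
      funext P
      simp
    rw [h2, h0]
  · exact free_of_class hy hL (interior_closure_sub ⟨_, h2⟩ h2)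

theorem semi_q (hy : NormalModel y) (hc : PicardBasis y c) (hq : IrregularityZero y)
    {L : Place ℂ K → ℚ} (hL : {P | IsPrimeDivisor y P ∧ L P ≠ 0}.Finite)
    (h : ∃ m : ℕ, 1 ≤ m ∧ ∃ D : Place ℂ K → ℤ, IsFree y n D ∧
      cls y (cQ c) (fun P => m * L P - D P) = 0) : SemiampleD y n L := by
  obtain ⟨m, hm, D, hD, h0⟩ := h
  have hDf : Fin0 y (fun P => (D P : ℚ)) := by
    refine hD.1.subset ?_
    rintro P ⟨h1, h2⟩
    exact ⟨h1, fun h3 => h2 (by show ((D P : ℤ) : ℚ) = 0; rw [h3]; simp)⟩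
  have hf : Fin0 y (fun P => m * L P - D P) := (Fin0.smul hL (m : ℚ)).sub hDf
  have h1 := psef_of_zero hc.numClasses hf h0
  have h2 := psef_of_zero hc.numClasses (fin_neg hf) (by rw [cls_neg, h0, neg_zero])
  obtain ⟨k, hk, f, hf0, hk2⟩ := torsion hy hq hf h1 h2
  have h3 : ∀ P, IsPrimeDivisor y P →
      (((k : ℤ) * D P + P.ord f : ℤ) : ℚ) = ((k * m : ℕ) : ℚ) * L P := by
    intro P hP
    push_cast
    rw [hk2 P hP]
    ring
  refine ⟨k * m, Nat.one_le_iff_ne_zero.2 (by positivity), fun P => (k : ℤ) * D P + P.ord f,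
    free_princ (free_nsmul hy hD k) hf0 ?_ (fun P _ => rfl), h3⟩
  refine hL.subset ?_
  rintro P ⟨hP, h4⟩
  refine ⟨hP, fun h5 => h4 ?_⟩
  have h6 := h3 P hP
  rw [h5, mul_zero] at h6
  exact_mod_cast h6

end

end Pool.Agent.K6.H27.CY
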